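import Pool.Agent.helper20.SOL.Spec

/-! # Project sol (MP_cad530_co), row LX4 -/

set_option autoImplicit false

namespace Pool.Agent.SOL

open Pool.Agent.helper54.SOG Finset

open scoped BigOperators

theorem LX4 (hCNT : CNT_stmt) : LX4_stmt := by
  intro n t s M _ _ f T hodd hflp x hx
  have hfl := hCNT.2.2.2.1
  have key : ∀ P : Finset (Fin n), (fun j => if j ∈ P then -x j else x j) ∈ TD n t s ∧
      f x - f (fun j => if j ∈ P then -x j else x j) = ∑ i ∈ P, (2 * (x i : ℝ)) • T i := by
    intro P
    induction P using Finset.induction_on with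
    | empty =>
      have h1 : (fun j => if j ∈ (∅ : Finset (Fin n)) then -x j else x j) = x := by
        funext j
        simp
      rw [h1]
      exact ⟨hx, by simp⟩
    | insert i P hi ih =>
      have h1 : (fun j => if j ∈ insert i P then -x j else x j) =
          flp i (fun j => if j ∈ P then -x j else x j) := by
        funext j
        unfold flp
        by_cases hj : j = i
        · subst hj
          simp [hi]
        · simp [hj]
      have h2 := hflp _ ih.1 i
      have h3 : (if i ∈ P then -x i else x i) = x i := if_neg hi
      simp only [h3] at h2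
      rw [h1, sum_insert hi, ← ih.2, ← h2]
      exact ⟨hfl n t s _ i ih.1, by abel⟩
  have h4 := (key univ).2
  have h5 : (fun j => if j ∈ (univ : Finset (Fin n)) then -x j else x j) = -x := by
    funext j
    simp
  rw [h5, hodd x hx, sub_neg_eq_add] at h4
  have h6 : ∑ i, (2 * (x i : ℝ)) • T i = (2 : ℝ) • ∑ i, (x i : ℝ) • T i := by
    rw [smul_sum]
    exact sum_congr rfl fun i _ => by rw [smul_smul]
  rw [h6, ← two_smul ℝ (f x)] at h4
  have h7 := congrArg (fun z : M => (2⁻¹ : ℝ) • z) h4
  simpa [smul_smul] using h7

end Pool.Agent.SOL
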